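import Mathlib
import Pool.Agent.W398.SG.Stm

namespace Pool.Agent.W214.SG

open Pool.Agent.W37.SG Pool.Agent.W398.SG
open scoped commutatorElement

universe u

theorem main : S_GAM.{u} → S_NIL.{u} → S_FAC.{u} → S_CHAIN.{u} := by
  intro hGAM hNIL hFAC p _ R _ _ _ hinf hprop hfin
  obtain ⟨hop, i0, hfac⟩ := hFAC p R hinf hprop hfin
  obtain ⟨g1, g2, g3⟩ := hGAM R
  have hanti : ∀ i j, i ≤ j → gammaBar R j ≤ gammaBar R i := by
    intro i j hij
    exact antitone_nat_of_succ_le g1 hij
  have claim : ∀ L : Subgroup R, L.Normal → IsOpen (L : Set R) → L ≤ gammaBar R i0 →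
      ∃ i, L = gammaBar R i := by
    intro L hn hL hLi
    obtain ⟨m, hm⟩ := hNIL p R hprop L hn hL
    by_cases hall : ∀ j, i0 ≤ j → L ≤ gammaBar R j
    · refine ⟨max i0 m, le_antisymm (hall _ (le_max_left _ _)) ?_⟩
      exact (hanti m _ (le_max_right _ _)).trans hm
    · have hex : ∃ j, i0 ≤ j ∧ ¬ L ≤ gammaBar R j := by
        push Not at hall
        exact hall
      classical
      obtain ⟨j, hj⟩ : ∃ j, j = Nat.find hex := ⟨_, rfl⟩
      have hj1 : i0 ≤ j ∧ ¬ L ≤ gammaBar R j := by rw [hj]; exact Nat.find_spec hex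
      have hj2 : ∀ k, k < j → i0 ≤ k → L ≤ gammaBar R k := by
        intro k hk hk0
        rw [hj] at hk
        have := Nat.find_min hex hk
        by_contra hc
        exact this ⟨hk0, hc⟩
      have hj3 : i0 ≠ j := by
        rintro rfl
        exact hj1.2 hLi
      obtain ⟨j', rfl⟩ : ∃ j', j = j' + 1 := ⟨j - 1, by omega⟩
      have hj0 : i0 ≤ j' := by omega
      have hLj : L ≤ gammaBar R j' := hj2 j' (by omega) hj0
      have hH : L ⊔ gammaBar R (j' + 1) = gammaBar R j' := by
        rcases hfac j' hj0 (L ⊔ gammaBar R (j' + 1)) le_sup_right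
          (sup_le hLj (g1 j')) with h | h
        · exact absurd (le_sup_left.trans h.le) hj1.2
        · exact h
      have hstep : ∀ k, j' + 1 ≤ k → gammaBar R j' ≤ L ⊔ gammaBar R k := by
        intro k hk
        induction k, hk using Nat.le_induction with
        | base => exact hH.ge
        | succ k hk ih =>
          have hMo : IsOpen ((L ⊔ gammaBar R (k + 1) : Subgroup R) : Set R) :=
            Subgroup.isOpen_mono le_sup_left hL
          have hMc : IsClosed ((L ⊔ gammaBar R (k + 1) : Subgroup R) : Set R) :=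
            Subgroup.isClosed_of_isOpen _ hMo
          have h3 : gammaBar R (j' + 1) ≤ L ⊔ gammaBar R (k + 1) := by
            refine g3 j' _ hMc ?_
            intro x hx r
            have hx' := ih hx
            rw [Subgroup.mem_sup_of_normal_left] at hx'
            obtain ⟨l, hl, t, ht, rfl⟩ := hx'
            have e : ⁅l * t, r⁆ = l * ⁅t, r⁆ * (r * l⁻¹ * r⁻¹) := by
              simp only [commutatorElement_def]
              group
            rw [e]
            refine Subgroup.mul_mem _ (Subgroup.mul_mem _ ?_ ?_) ?_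
            · exact (le_sup_left : L ≤ _) hl
            · exact (le_sup_right : gammaBar R (k + 1) ≤ _) (g2 k t ht r)
            · exact (le_sup_left : L ≤ _) (hn.conj_mem _ (L.inv_mem hl) r)
          calc gammaBar R j' = L ⊔ gammaBar R (j' + 1) := hH.symm
            _ ≤ L ⊔ gammaBar R (k + 1) := sup_le le_sup_left h3
      refine ⟨j', le_antisymm hLj ?_⟩
      refine (hstep (max (j' + 1) m) (le_max_left _ _)).trans (sup_le le_rfl ?_)
      exact (hanti m _ (le_max_right _ _)).trans hm
  refine ⟨gammaBar R i0, hop i0, ?_⟩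
  intro L L' hn hn' hL hL' hLi hLi'
  obtain ⟨i, rfl⟩ := claim L hn hL hLi
  obtain ⟨i', rfl⟩ := claim L' hn' hL' hLi'
  rcases le_total i i' with h | h
  · exact Or.inr (hanti _ _ h)
  · exact Or.inl (hanti _ _ h)

end Pool.Agent.W214.SG
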